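import Mathlib

set_option autoImplicit false

namespace Pool.Agent.Results.MP_b87ef1_co.EvenCounterexample

/-- No three pairwise distinct members `A`, `B`, `C` with `A ∪ B = C` or `A ∩ B = C`. -/
def Admissible {n : ℕ} (F : Finset (Finset (Fin n))) : Prop :=
  ∀ A ∈ F, ∀ B ∈ F, ∀ C ∈ F, A ≠ B → A ≠ C → B ≠ C → A ∪ B ≠ C ∧ A ∩ B ≠ C

open Finset

/-- The family for `n = 2k + 2`, with distinguished element `x`. -/
def fam (k : ℕ) (x : Fin (2 * k + 2)) : Finset (Finset (Fin (2 * k + 2))) :=
  Finset.univ.filter (fun A => (x ∉ A ∧ (A.card = k ∨ A.card = 2 * k + 1)) ∨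
    (x ∈ A ∧ (A.card = k + 2 ∨ A.card = 1)))

theorem mem_fam (k : ℕ) (x : Fin (2 * k + 2)) (A : Finset (Fin (2 * k + 2))) : A ∈ fam k x ↔
    (x ∉ A ∧ (A.card = k ∨ A.card = 2 * k + 1)) ∨ (x ∈ A ∧ (A.card = k + 2 ∨ A.card = 1)) := by
  unfold fam
  rw [Finset.mem_filter]
  exact ⟨fun h => h.2, fun h => ⟨Finset.mem_univ _, h⟩⟩

theorem card_union_lt {α : Type*} [DecidableEq α] {A B : Finset α} (h : ¬ B ⊆ A) : A.card < (A ∪ B).card := by
  apply Finset.card_lt_card
  rw [Finset.ssubset_iff_subset_ne]
  refine ⟨Finset.subset_union_left, ?_⟩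
  intro h1
  apply h
  rw [h1]
  exact Finset.subset_union_right

theorem card_inter_lt {α : Type*} [DecidableEq α] {A B : Finset α} (h : ¬ A ⊆ B) : (A ∩ B).card < A.card := by
  apply Finset.card_lt_card
  rw [Finset.ssubset_iff_subset_ne]
  refine ⟨Finset.inter_subset_left, ?_⟩
  intro h1
  apply h
  rw [← h1]
  exact Finset.inter_subset_right

theorem adm (k : ℕ) (hk : 1 ≤ k) (x : Fin (2 * k + 2)) : Admissible (fam k x) := by
  intro A hA B hB C hC hAB hAC hBC
  rw [mem_fam] at hA hB hC
  have cle : ∀ S : Finset (Fin (2 * k + 2)), x ∉ S → S.card ≤ 2 * k + 1 := by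
    intro S hS
    have h1 : S ⊆ Finset.univ.erase x := by
      intro y hy
      rw [Finset.mem_erase]
      exact ⟨fun h => hS (h ▸ hy), Finset.mem_univ _⟩
    have := Finset.card_le_card h1
    rw [Finset.card_erase_of_mem (Finset.mem_univ _), Finset.card_univ, Fintype.card_fin] at this
    omega
  have ie := Finset.card_union_add_card_inter A B
  have ule : (A ∪ B).card ≤ 2 * k + 2 := by
    have := Finset.card_le_univ (A ∪ B)
    rwa [Fintype.card_fin] at this
  constructor
  · intro h
    have hA' : ¬ B ⊆ A := fun h1 => hAC (by rw [← h, Finset.union_eq_left.mpr h1])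
    have hB' : ¬ A ⊆ B := fun h1 => hBC (by rw [← h, Finset.union_eq_right.mpr h1])
    have l1 := card_union_lt hA'
    have l2 := card_union_lt hB'
    rw [Finset.union_comm B A] at l2
    rw [h] at l1 l2 ie ule
    have hx : x ∈ C ↔ (x ∈ A ∨ x ∈ B) := by rw [← h, Finset.mem_union]
    have hxi : x ∈ A → x ∈ B → 1 ≤ (A ∩ B).card := by
      intro h1 h2
      exact Finset.card_pos.mpr ⟨x, Finset.mem_inter.mpr ⟨h1, h2⟩⟩
    by_cases ha : x ∈ A <;> by_cases hb : x ∈ B <;>
      simp only [ha, hb, hx, true_or, or_true, or_false, false_or, not_true_eq_false, not_false_eq_true, false_and,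
        true_and, true_implies, or_self] at hA hB hC hxi <;> omega
  · intro h
    have hA' : ¬ A ⊆ B := fun h1 => hAC (by rw [← h, Finset.inter_eq_left.mpr h1])
    have hB' : ¬ B ⊆ A := fun h1 => hBC (by rw [← h, Finset.inter_eq_right.mpr h1])
    have l1 := card_inter_lt hA'
    have l2 := card_inter_lt hB'
    rw [Finset.inter_comm B A] at l2
    rw [h] at l1 l2 ie
    have hx : x ∈ C ↔ (x ∈ A ∧ x ∈ B) := by rw [← h, Finset.mem_inter]
    have hxu : x ∉ A → x ∉ B → (A ∪ B).card ≤ 2 * k + 1 := by
      intro h1 h2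
      exact cle _ (by rw [Finset.mem_union]; tauto)
    by_cases ha : x ∈ A <;> by_cases hb : x ∈ B <;>
      simp only [ha, hb, hx, true_or, or_true, or_false, false_or, not_true_eq_false, not_false_eq_true, false_and,
        true_and, and_true, and_false, true_implies, or_self] at hA hB hC hxu <;> omega

theorem card_fam (k : ℕ) (hk : 1 ≤ k) (x : Fin (2 * k + 2)) :
    (fam k x).card = Nat.choose (2 * k + 2) (k + 1) + 2 := by
  have h1 : fam k x = ((Finset.univ.erase x).powersetCard k ∪ (Finset.univ.erase x).powersetCard (2 * k + 1)) ∪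
      (((Finset.univ.erase x).powersetCard (k + 1)).image (insert x) ∪
        ((Finset.univ.erase x).powersetCard 0).image (insert x)) := by
    ext A
    rw [mem_fam]
    simp only [Finset.mem_union, Finset.mem_powersetCard, Finset.mem_image]
    constructor
    · rintro (⟨h1, h2⟩ | ⟨h1, h2⟩)
      · left
        have hs : A ⊆ Finset.univ.erase x := by
          intro y hy
          rw [Finset.mem_erase]
          exact ⟨fun h => h1 (h ▸ hy), Finset.mem_univ _⟩
        rcases h2 with h2 | h2
        · left; exact ⟨hs, h2⟩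
        · right; exact ⟨hs, h2⟩
      · right
        have hs : A.erase x ⊆ Finset.univ.erase x := Finset.erase_subset_erase x (Finset.subset_univ A)
        have hc : (A.erase x).card = A.card - 1 := Finset.card_erase_of_mem h1
        rcases h2 with h2 | h2
        · left; exact ⟨A.erase x, ⟨hs, by omega⟩, Finset.insert_erase h1⟩
        · right; exact ⟨A.erase x, ⟨hs, by omega⟩, Finset.insert_erase h1⟩
    · rintro ((⟨h1, h2⟩ | ⟨h1, h2⟩) | (⟨B, ⟨h1, h2⟩, rfl⟩ | ⟨B, ⟨h1, h2⟩, rfl⟩))
      · left
        exact ⟨fun h => by simpa using h1 h, Or.inl h2⟩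
      · left
        exact ⟨fun h => by simpa using h1 h, Or.inr h2⟩
      · right
        have hx : x ∉ B := fun h => by simpa using h1 h
        exact ⟨Finset.mem_insert_self _ _, Or.inl (by rw [Finset.card_insert_of_notMem hx]; omega)⟩
      · right
        have hx : x ∉ B := fun h => by simpa using h1 h
        exact ⟨Finset.mem_insert_self _ _, Or.inr (by rw [Finset.card_insert_of_notMem hx]; omega)⟩
  have hce : (Finset.univ.erase x).card = 2 * k + 1 := by
    rw [Finset.card_erase_of_mem (Finset.mem_univ _), Finset.card_univ, Fintype.card_fin]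
    omega
  have hinj : Set.InjOn (insert x : Finset (Fin (2 * k + 2)) → _) {B | x ∉ B} := by
    intro B hB B' hB' h
    have := congrArg (fun S : Finset (Fin (2 * k + 2)) => S.erase x) h
    simpa only [Finset.erase_insert hB, Finset.erase_insert hB'] using this
  have hnx : ∀ j, ∀ B ∈ (Finset.univ.erase x).powersetCard j, x ∉ B := by
    intro j B hB h
    simpa using (Finset.mem_powersetCard.mp hB).1 h
  have hci : ∀ j, (((Finset.univ.erase x).powersetCard j).image (insert x)).card = Nat.choose (2 * k + 1) j := by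
    intro j
    rw [Finset.card_image_of_injOn, Finset.card_powersetCard, hce]
    intro B hB B' hB' h
    exact hinj (hnx j B hB) (hnx j B' hB') h
  have hdj : ∀ i j, i ≠ j → Disjoint ((Finset.univ.erase x).powersetCard i) ((Finset.univ.erase x).powersetCard j) := by
    intro i j hij
    rw [Finset.disjoint_left]
    intro B h1 h2
    exact hij ((Finset.mem_powersetCard.mp h1).2.symm.trans (Finset.mem_powersetCard.mp h2).2)
  rw [h1, Finset.card_union_of_disjoint, Finset.card_union_of_disjoint (hdj _ _ (by omega)),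
    Finset.card_union_of_disjoint, hci, hci, Finset.card_powersetCard, Finset.card_powersetCard, hce,
    Nat.choose_self, Nat.choose_zero_right, Nat.choose_succ_succ (2 * k + 1) k]
  · ring
  · rw [Finset.disjoint_left]
    intro A h2 h3
    obtain ⟨B, hB, rfl⟩ := Finset.mem_image.mp h2
    obtain ⟨B', hB', h4⟩ := Finset.mem_image.mp h3
    have := hinj (hnx _ B' hB') (hnx _ B hB) h4
    subst this
    have e1 := (Finset.mem_powersetCard.mp hB).2
    have e2 := (Finset.mem_powersetCard.mp hB').2
    omega
  · rw [Finset.disjoint_left]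
    intro A h2 h3
    have hx : x ∈ A := by
      rcases Finset.mem_union.mp h3 with h3 | h3 <;>
      · obtain ⟨B, hB, rfl⟩ := Finset.mem_image.mp h3
        exact Finset.mem_insert_self _ _
    rcases Finset.mem_union.mp h2 with h2 | h2
    · exact hnx _ A h2 hx
    · exact hnx _ A h2 hx

/-- Two full levels of the cube. -/
theorem two_levels (n i j : ℕ) (h1 : 2 * i < j) (h2 : n + i < 2 * j) :
    Admissible ((Finset.univ : Finset (Fin n)).powersetCard i ∪ (Finset.univ : Finset (Fin n)).powersetCard j) := by
  intro A hA B hB C hC hAB hAC hBC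
  simp only [Finset.mem_union, Finset.mem_powersetCard, Finset.subset_univ, true_and] at hA hB hC
  have ie := Finset.card_union_add_card_inter A B
  have ule : (A ∪ B).card ≤ n := by
    have := Finset.card_le_univ (A ∪ B)
    rwa [Fintype.card_fin] at this
  constructor
  · intro h
    have hA' : ¬ B ⊆ A := fun h1 => hAC (by rw [← h, Finset.union_eq_left.mpr h1])
    have hB' : ¬ A ⊆ B := fun h1 => hBC (by rw [← h, Finset.union_eq_right.mpr h1])
    have l1 := card_union_lt hA'
    have l2 := card_union_lt hB'
    rw [Finset.union_comm B A] at l2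
    rw [h] at l1 l2 ie ule
    omega
  · intro h
    have hA' : ¬ A ⊆ B := fun h1 => hAC (by rw [← h, Finset.inter_eq_left.mpr h1])
    have hB' : ¬ B ⊆ A := fun h1 => hBC (by rw [← h, Finset.inter_eq_right.mpr h1])
    have l1 := card_inter_lt hA'
    have l2 := card_inter_lt hB'
    rw [Finset.inter_comm B A] at l2
    rw [h] at l1 l2 ie
    omega

/-- For every even `n = 2k + 2 ≥ 4` there is an admissible family with `C(n, n/2) + 2` members, more than the
conjectured value `C(n, n/2) + 1`; and for `n = 7` there is one with `42` members, more than the conjectured value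
`(8/7) C(7, 3) = 40`. -/
theorem result :
    (∀ k : ℕ, 1 ≤ k → ∃ F : Finset (Finset (Fin (2 * k + 2))), Admissible F ∧
      F.card = Nat.choose (2 * k + 2) (k + 1) + 2) ∧
    (∃ F : Finset (Finset (Fin 7)), Admissible F ∧ F.card = 42 ∧
      (7 + 1) * Nat.choose 7 3 / 7 < F.card) := by
  refine ⟨fun k hk => ⟨fam k 0, adm k hk 0, card_fam k hk 0⟩, _, two_levels 7 2 5 (by norm_num) (by norm_num), ?_⟩
  have : ((Finset.univ : Finset (Fin 7)).powersetCard 2 ∪ (Finset.univ : Finset (Fin 7)).powersetCard 5).card = 42 := by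
    rw [Finset.card_union_of_disjoint, Finset.card_powersetCard, Finset.card_powersetCard, Finset.card_univ,
      Fintype.card_fin]
    · rfl
    · rw [Finset.disjoint_left]
      intro A h1 h2
      have e1 := (Finset.mem_powersetCard.mp h1).2
      have e2 := (Finset.mem_powersetCard.mp h2).2
      omega
  rw [this]
  exact ⟨rfl, by decide⟩

end Pool.Agent.Results.MP_b87ef1_co.EvenCounterexample
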